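import Mathlib

/-!
# The addition-and-subtraction map on x-coordinates, for actual points
-/

open MvPolynomial WeierstrassCurve WeierstrassCurve.Affine WeierstrassCurve.Affine.Point

namespace Pool.Agent.Lib.MP_2f3286_ag.Ell

variable {F : Type*} [Field F]

/-- `addSubMap` as an explicit vector. -/
def asv (W : WeierstrassCurve F) (s t u : F) : Fin 3 → F :=
  ![s ^ 2 - W.b₄ * s * u - W.b₆ * t * u - W.b₈ * u ^ 2,
    2 * t * s + W.b₂ * s * u + W.b₄ * t * u + W.b₆ * u ^ 2,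
    t ^ 2 - 4 * s * u]

theorem asv_eq (W : WeierstrassCurve F) (x : Fin 3 → F) :
    (fun i => (addSubMap W i).eval x) = asv W (x 0) (x 1) (x 2) := by
  funext i
  fin_cases i <;> simp [addSubMap, asv]

theorem asv_ne_zero (W : WeierstrassCurve F) [W.IsElliptic] {x : Fin 3 → F} (hx : x ≠ 0) :
    asv W (x 0) (x 1) (x 2) ≠ 0 := by
  rw [← asv_eq]
  exact addSubMap_ne_zero W hx

variable [DecidableEq F]

theorem addSub_X_ne (W : Affine F) {x₁ y₁ x₂ y₂ : F} (h₁ : W.Nonsingular x₁ y₁)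
    (h₂ : W.Nonsingular x₂ y₂) (hx : x₁ ≠ x₂) :
    asv W (x₁ * x₂) (x₁ + x₂) 1 = (x₁ - x₂) ^ 2 •
      sym2x (some x₁ y₁ h₁ + some x₂ y₂ h₂) (some x₁ y₁ h₁ - some x₂ y₂ h₂) := by
  have hx' : x₁ - x₂ ≠ 0 := sub_ne_zero.mpr hx
  have hs : some x₁ y₁ h₁ - some x₂ y₂ h₂ = some x₁ y₁ h₁ + -some x₂ y₂ h₂ := sub_eq_add_neg _ _
  rw [hs, neg_some, add_of_X_ne hx, add_of_X_ne hx]
  simp only [sym2x_some_some, slope_of_X_ne hx, addX]
  have e₁ := (W.equation_iff x₁ y₁).mp h₁.1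
  have e₂ := (W.equation_iff x₂ y₂).mp h₂.1
  set ℓ := (y₁ - y₂) / (x₁ - x₂) with hℓ
  set m := (y₁ - W.negY x₂ y₂) / (x₁ - x₂) with hm
  have hℓ' : ℓ * (x₁ - x₂) = y₁ - y₂ := div_mul_cancel₀ _ hx'
  have hm' : m * (x₁ - x₂) = y₁ + y₂ + W.a₁ * x₂ + W.a₃ := by
    rw [hm, div_mul_cancel₀ _ hx', negY]; ring
  clear_value ℓ m
  have hN1 : (x₁ - x₂) ^ 2 * (ℓ ^ 2 + W.a₁ * ℓ - W.a₂ - x₁ - x₂) =
      (y₁ - y₂) ^ 2 + W.a₁ * (y₁ - y₂) * (x₁ - x₂) - (W.a₂ + x₁ + x₂) * (x₁ - x₂) ^ 2 := by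
    rw [← hℓ']; ring
  have hN2 : (x₁ - x₂) ^ 2 * (m ^ 2 + W.a₁ * m - W.a₂ - x₁ - x₂) =
      (y₁ + y₂ + W.a₁ * x₂ + W.a₃) ^ 2 + W.a₁ * (y₁ + y₂ + W.a₁ * x₂ + W.a₃) * (x₁ - x₂)
        - (W.a₂ + x₁ + x₂) * (x₁ - x₂) ^ 2 := by
    rw [← hm']; ring
  funext i
  fin_cases i
  · simp only [asv, Fin.zero_eta, Matrix.cons_val_zero, Pi.smul_apply, smul_eq_mul, b₄, b₆, b₈]
    apply mul_left_cancel₀ (pow_ne_zero 2 hx')
    rw [show (x₁ - x₂) ^ 2 * ((x₁ - x₂) ^ 2 * ((ℓ ^ 2 + W.a₁ * ℓ - W.a₂ - x₁ - x₂) *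
      (m ^ 2 + W.a₁ * m - W.a₂ - x₁ - x₂))) = ((x₁ - x₂) ^ 2 * (ℓ ^ 2 + W.a₁ * ℓ - W.a₂ - x₁ - x₂)) *
      ((x₁ - x₂) ^ 2 * (m ^ 2 + W.a₁ * m - W.a₂ - x₁ - x₂)) by ring, hN1, hN2]
    linear_combination (x₁^3 + (-2)*x₁^2*x₂ + x₁^2*W.a₂ + (-2)*x₁*x₂^2 + -x₁*x₂*W.a₁^2 + (-4)*x₁*x₂*W.a₂ + -x₁*y₁*W.a₁ + -x₁*W.a₁*W.a₃ + -x₁*W.a₄ + 2*x₂^3 + x₂^2*W.a₁^2 + 2*x₂^2*W.a₂ + 2*x₂*y₂*W.a₁ + x₂*W.a₁*W.a₃ + -y₁^2 + -y₁*W.a₃ + 2*y₂^2 + 2*y₂*W.a₃ + -W.a₆) * e₁ + (4*x₁^3 + (-2)*x₁^2*x₂ + x₁^2*W.a₁^2 + 4*x₁^2*W.a₂ + (-2)*x₁*x₂^2 + -x₁*x₂*W.a₁^2 + (-4)*x₁*x₂*W.a₂ + x₁*W.a₁*W.a₃ + 2*x₁*W.a₄ + x₂^3 + x₂^2*W.a₂ + -x₂*y₂*W.a₁ + -x₂*W.a₁*W.a₃ + -x₂*W.a₄ + -y₂^2 + -y₂*W.a₃ + W.a₆) * e₂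
  · simp only [asv, Fin.mk_one, Matrix.cons_val_one, Matrix.cons_val_zero, Pi.smul_apply,
      smul_eq_mul, b₂, b₄, b₆]
    linear_combination (-2) * e₁ - 2 * e₂ - hN1 - hN2
  · simp [asv]
    ring

theorem addSub_self (W : Affine F) {x y : F} (h : W.Nonsingular x y) (hy : y ≠ W.negY x y) :
    asv W (x * x) (x + x) 1 = (y - W.negY x y) ^ 2 •
      sym2x (some x y h + some x y h) 0 := by
  have hy' : y - W.negY x y ≠ 0 := sub_ne_zero.mpr hy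
  rw [add_self_of_Y_ne hy, sym2x_some_zero]
  have e := (W.equation_iff x y).mp h.1
  set ℓ := W.slope x x y y with hℓ
  have hℓ' : ℓ * (y - W.negY x y) = 3 * x ^ 2 + 2 * W.a₂ * x + W.a₄ - W.a₁ * y := by
    rw [hℓ, slope_of_Y_ne rfl hy, div_mul_cancel₀ _ hy']
  clear_value ℓ
  simp only [negY] at hy' hℓ' ⊢
  funext i
  fin_cases i
  · simp only [asv, Fin.zero_eta, Matrix.cons_val_zero, Pi.smul_apply, smul_eq_mul, b₄, b₆, b₈,
      addX]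
    have hN : (y - (-y - W.a₁ * x - W.a₃)) ^ 2 * (ℓ ^ 2 + W.a₁ * ℓ - W.a₂ - x - x) =
      (3 * x ^ 2 + 2 * W.a₂ * x + W.a₄ - W.a₁ * y) ^ 2 +
        W.a₁ * (3 * x ^ 2 + 2 * W.a₂ * x + W.a₄ - W.a₁ * y) * (y - (-y - W.a₁ * x - W.a₃)) -
        (W.a₂ + x + x) * (y - (-y - W.a₁ * x - W.a₃)) ^ 2 := by
      rw [← hℓ']; ring
    rw [hN]
    linear_combination (8 * x + W.a₁ ^ 2 + 4 * W.a₂) * e
  · simp only [asv, Fin.mk_one, Matrix.cons_val_one, Matrix.cons_val_zero, Pi.smul_apply,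
      smul_eq_mul, b₂, b₄, b₆]
    linear_combination (-4) * e
  · simp [asv]
    ring

theorem asv_smul (W : WeierstrassCurve F) (a s t u : F) :
    asv W (a * s) (a * t) (a * u) = a ^ 2 • asv W s t u := by
  funext i
  fin_cases i <;> simp [asv] <;> ring

/-- `addSubMap` really computes the x-coordinates of `P + Q` and `P - Q`. -/
theorem addSub (W : Affine F) [W.IsElliptic] (P Q : W.Point) :
    ∃ c : F, c ≠ 0 ∧ asv W (P.sym2x Q 0) (P.sym2x Q 1) (P.sym2x Q 2) =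
      c • sym2x (P + Q) (P - Q) := by
  rcases P with _ | ⟨x₁, y₁, h₁⟩
  · rw [← zero_def, zero_add, zero_sub, sym2x_neg_right]
    refine ⟨1, one_ne_zero, ?_⟩
    rcases Q with _ | ⟨x, y, h⟩
    · rw [← zero_def, sym2x_zero_zero]
      funext i
      fin_cases i <;> simp [asv]
    · rw [sym2x_zero_some, sym2x_some_some]
      funext i
      fin_cases i <;> simp [asv] <;> ring
  rcases Q with _ | ⟨x₂, y₂, h₂⟩
  · rw [← zero_def, add_zero, sub_zero]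
    refine ⟨1, one_ne_zero, ?_⟩
    rw [sym2x_some_zero, sym2x_some_some]
    funext i
    fin_cases i <;> simp [asv] <;> ring
  rw [sym2x_some_some]
  simp only [Matrix.cons_val_zero, Matrix.cons_val_one, Matrix.cons_val]
  by_cases hx : x₁ = x₂
  · subst hx
    by_cases hy : y₁ = W.negY x₁ y₁
    · -- two-torsion
      have hQ : some x₁ y₂ h₂ = some x₁ y₁ h₁ := by
        rcases Y_eq_of_X_eq h₂.1 h₁.1 rfl with h | h
        · subst h; rfl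
        · rw [← hy] at h; subst h; rfl
      rw [hQ, sub_self, add_self_of_Y_eq hy, sym2x_zero_zero]
      have hne := asv_ne_zero W (x := ![x₁ * x₁, x₁ + x₁, 1]) (by
        intro h; have := congrFun h 2; simp at this)
      simp only [Matrix.cons_val_zero, Matrix.cons_val_one, Matrix.cons_val] at hne
      have e := (W.equation_iff x₁ y₁).mp h₁.1
      have hy' : 2 * y₁ + W.a₁ * x₁ + W.a₃ = 0 := by
        rw [negY] at hy; linear_combination hy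
      have h1 : asv W (x₁ * x₁) (x₁ + x₁) 1 1 = 0 := by
        simp only [asv, Matrix.cons_val_one, Matrix.cons_val_zero, b₂, b₄, b₆]
        linear_combination (-4) * e + (2 * y₁ + W.a₁ * x₁ + W.a₃) * hy'
      have h2 : asv W (x₁ * x₁) (x₁ + x₁) 1 2 = 0 := by
        simp [asv]; ring
      refine ⟨asv W (x₁ * x₁) (x₁ + x₁) 1 0, ?_, ?_⟩
      · intro h0
        apply hne
        funext i
        fin_cases i
        · exact h0
        · exact h1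
        · exact h2
      · funext i
        fin_cases i
        · simp
        · simpa using h1
        · simpa using h2
    · refine ⟨(y₁ - W.negY x₁ y₁) ^ 2, pow_ne_zero 2 (sub_ne_zero.mpr hy), ?_⟩
      rw [addSub_self W h₁ hy]
      congr 1
      rcases Y_eq_of_X_eq h₂.1 h₁.1 rfl with h | h
      · subst h
        rw [sub_self]
      · have hQ : some x₁ y₂ h₂ = -some x₁ y₁ h₁ := by
          rw [neg_some]; subst h; rfl
        rw [hQ, add_neg_cancel, sub_neg_eq_add, sym2x_comm]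
  · exact ⟨_, pow_ne_zero 2 (sub_ne_zero.mpr hx), addSub_X_ne W h₁ h₂ hx⟩

end Pool.Agent.Lib.MP_2f3286_ag.Ell
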