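import Mathlib

/-!
# Quadratic functions from approximately quadratic ones
-/

namespace Pool.Agent.Lib.MP_2f3286_ag.Ell

open Filter Topology

variable {G : Type*} [AddCommGroup G]

/-- Tate's limit argument. -/
theorem exists_quadratic (h : G → ℝ) (C : ℝ)
    (hC : ∀ P Q : G, |h (P + Q) + h (P - Q) - 2 * (h P + h Q)| ≤ C) :
    ∃ (q : G → ℝ) (C' : ℝ), (∀ P Q : G, q (P + Q) + q (P - Q) = 2 * (q P + q Q)) ∧
      ∀ P, |h P - q P| ≤ C' := by
  set D := C + |h 0| with hD
  have hD0 : 0 ≤ D := by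
    have := (abs_nonneg _).trans (hC 0 0)
    positivity
  have h2 : ∀ P, |h (2 • P) - 4 * h P| ≤ D := by
    intro P
    have h1 := hC P P
    rw [sub_self, ← two_nsmul] at h1
    have h3 : h (2 • P) - 4 * h P = (h (2 • P) + h 0 - 2 * (h P + h P)) - h 0 := by ring
    rw [h3]
    exact (abs_sub _ _).trans (by rw [hD]; linarith)
  let a : G → ℕ → ℝ := fun P n => h (2 ^ n • P) / 4 ^ n
  have ha : ∀ P n, dist (a P n) (a P (n + 1)) ≤ (D / 4) * (1 / 4) ^ n := by
    intro P n
    have h1 := h2 (2 ^ n • P)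
    rw [← mul_nsmul', ← pow_succ'] at h1
    rw [Real.dist_eq, abs_sub_comm]
    have h3 : a P (n + 1) - a P n = (h (2 ^ (n + 1) • P) - 4 * h (2 ^ n • P)) / 4 ^ (n + 1) := by
      simp only [a]
      field_simp
      ring
    rw [h3, abs_div, abs_of_pos (by positivity : (0 : ℝ) < 4 ^ (n + 1))]
    rw [div_le_iff₀ (by positivity)]
    refine h1.trans (le_of_eq ?_)
    rw [pow_succ, one_div, inv_pow]
    field_simp
  have hcau : ∀ P, CauchySeq (a P) := fun P =>
    cauchySeq_of_le_geometric (1 / 4) (D / 4) (by norm_num) (ha P)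
  choose q hq using fun P => cauchySeq_tendsto_of_complete (hcau P)
  refine ⟨q, D / 4 / (1 - 1 / 4), ?_, ?_⟩
  · intro P Q
    have h3 : Tendsto (fun n => a (P + Q) n + a (P - Q) n - 2 * (a P n + a Q n)) atTop
        (𝓝 (q (P + Q) + q (P - Q) - 2 * (q P + q Q))) :=
      ((hq _).add (hq _)).sub (((hq _).add (hq _)).const_mul 2)
    have h4 : Tendsto (fun n => a (P + Q) n + a (P - Q) n - 2 * (a P n + a Q n)) atTop (𝓝 0) := by
      have h5 : Tendsto (fun n : ℕ => C * (1 / 4 : ℝ) ^ n) atTop (𝓝 0) := by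
        have := (tendsto_pow_atTop_nhds_zero_of_lt_one (r := (1 / 4 : ℝ)) (by norm_num)
          (by norm_num)).const_mul C
        simpa using this
      refine squeeze_zero_norm (fun n => ?_) h5
      have h6 := hC (2 ^ n • P) (2 ^ n • Q)
      rw [← smul_add, ← smul_sub] at h6
      have h7 : a (P + Q) n + a (P - Q) n - 2 * (a P n + a Q n) =
          (h (2 ^ n • (P + Q)) + h (2 ^ n • (P - Q)) - 2 * (h (2 ^ n • P) + h (2 ^ n • Q))) /
            4 ^ n := by
        simp only [a]; ring
      rw [h7, Real.norm_eq_abs, abs_div, abs_of_pos (by positivity : (0 : ℝ) < 4 ^ n), one_div,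
        inv_pow, ← div_eq_mul_inv]
      gcongr
    exact sub_eq_zero.mp (tendsto_nhds_unique h3 h4)
  · intro P
    have h3 := dist_le_of_le_geometric_of_tendsto₀ (1 / 4) (D / 4) (by norm_num) (ha P) (hq P)
    have h4 : a P 0 = h P := by simp [a]
    rw [h4, Real.dist_eq] at h3
    exact h3

variable {q : G → ℝ} (hq : ∀ P Q : G, q (P + Q) + q (P - Q) = 2 * (q P + q Q))

include hq

theorem quad_zero : q 0 = 0 := by
  have := hq 0 0
  rw [add_zero, sub_zero] at this
  linarith

theorem quad_neg (P : G) : q (-P) = q P := by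
  have := hq 0 P
  rw [zero_add, zero_sub, quad_zero hq] at this
  linarith

theorem quad_nsmul (n : ℕ) (P : G) : q (n • P) = (n : ℝ) ^ 2 * q P := by
  induction n using Nat.strong_induction_on with
  | _ n ih =>
    match n with
    | 0 => simp [quad_zero hq]
    | 1 => simp
    | n + 2 =>
      have h1 := ih (n + 1) (by omega)
      have h2 := ih n (by omega)
      have h3 := hq ((n + 1) • P) P
      have h4 : (n + 1) • P + P = (n + 2) • P := by rw [← succ_nsmul]
      have h5 : (n + 1) • P - P = n • P := by rw [succ_nsmul, add_sub_cancel_right]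
      rw [h4, h5, h1, h2] at h3
      push_cast at h3 ⊢
      linarith

theorem quad_zsmul (n : ℤ) (P : G) : q (n • P) = (n : ℝ) ^ 2 * q P := by
  obtain ⟨m, rfl | rfl⟩ := n.eq_nat_or_neg
  · rw [natCast_zsmul, quad_nsmul hq]; simp
  · rw [neg_smul, natCast_zsmul, quad_neg hq, quad_nsmul hq]; simp

theorem quad_add_torsion (P : G) {t : G} {m : ℕ} (hm : 0 < m) (ht : m • t = 0) :
    q (P + t) = q P := by
  have h1 := quad_nsmul hq m (P + t)
  rw [smul_add, ht, add_zero, quad_nsmul hq] at h1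
  have hm' : (m : ℝ) ^ 2 ≠ 0 := by positivity
  exact (mul_left_cancel₀ hm' h1).symm

end Pool.Agent.Lib.MP_2f3286_ag.Ell
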