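import Pool.Agent.Lib.MP_2f3286_ag.Ell.AddSub
import Pool.Agent.Lib.MP_2f3286_ag.Ell.Quad

/-!
# Heights of points on elliptic curves over number fields
-/

open WeierstrassCurve WeierstrassCurve.Affine WeierstrassCurve.Affine.Point Height

namespace Pool.Agent.Lib.MP_2f3286_ag.Ell

variable {k : Type*} [Field k] [NumberField k] [DecidableEq k]

/-- naive height -/
noncomputable def nht {W : Affine k} (P : W.Point) : ℝ := logHeight P.xRep

theorem parallelogram (W : Affine k) [W.IsElliptic] :
    ∃ C : ℝ, ∀ P Q : W.Point, |nht (P + Q) + nht (P - Q) - 2 * (nht P + nht Q)| ≤ C := by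
  obtain ⟨C₁, h₁⟩ := abs_logHeight_addSubMap_sub_two_mul_logHeight_le W
  obtain ⟨C₂, h₂⟩ := abs_logHeight_sym2_sub_le k
  have hsym : ∀ P Q : W.Point, |logHeight (P.sym2x Q) - (nht P + nht Q)| ≤ C₂ := by
    intro P Q
    have hP : ![P.xRep 0, P.xRep 1] = P.xRep := by
      funext i; fin_cases i <;> rfl
    have hQ : ![Q.xRep 0, Q.xRep 1] = Q.xRep := by
      funext i; fin_cases i <;> rfl
    have := h₂ (a := P.xRep 0) (b := P.xRep 1) (c := Q.xRep 0) (d := Q.xRep 1)
      (by rw [hP]; exact xRep_ne_zero P) (by rw [hQ]; exact xRep_ne_zero Q)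
    rw [hP, hQ] at this
    exact this
  refine ⟨C₁ + 3 * C₂, fun P Q => ?_⟩
  obtain ⟨c, hc, h⟩ := addSub W P Q
  have h3 := h₁ (P.sym2x Q)
  rw [asv_eq, h, logHeight_smul_eq_logHeight _ hc] at h3
  have h4 := hsym P Q
  have h5 := hsym (P + Q) (P - Q)
  rw [abs_le] at h3 h4 h5 ⊢
  constructor <;> linarith [h3.1, h3.2, h4.1, h4.2, h5.1, h5.2]

omit [DecidableEq k] in
theorem finite_height_le (W : Affine k) (B : ℝ) : {P : W.Point | nht P ≤ B}.Finite := by
  have h1 : {x : k | logHeight₁ x ≤ B}.Finite := NumberField.finite_setOfPred_logHeight₁_le k B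
  have h2 : ((fun x : k => ![x, 1]) '' {x : k | logHeight₁ x ≤ B} ∪ {![1, 0]}).Finite :=
    (h1.image _).union (Set.finite_singleton _)
  refine (h2.preimage' (f := fun P : W.Point => P.xRep) ?_).subset ?_
  · intro b _
    by_cases hb : ∃ P₀ : W.Point, P₀.xRep = b
    · obtain ⟨P₀, rfl⟩ := hb
      refine (Set.toFinite {P₀, -P₀}).subset ?_
      intro P hP
      exact xRep_eq_xRep_iff.mp hP
    · refine Set.finite_empty.subset ?_
      intro P hP
      exact hb ⟨P, hP⟩
  · intro P hP
    rcases P with _ | ⟨x, y, h⟩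
    · right
      rfl
    · left
      refine ⟨x, ?_, rfl⟩
      have : nht (Point.some x y h) ≤ B := hP
      rw [nht, xRep_some, ← logHeight₁_eq_logHeight] at this
      exact this

/-- The height along a cyclic subgroup is quadratic up to a bounded error. -/
theorem height_cyclic (W : Affine k) [W.IsElliptic] :
    ∃ (q : W.Point → ℝ) (C : ℝ), (∀ P, |nht P - q P| ≤ C) ∧
      (∀ (n : ℤ) (P t : W.Point) (m : ℕ), 0 < m → m • t = 0 → q (n • P + t) = (n : ℝ) ^ 2 * q P) ∧
      (∀ P, (∀ m : ℕ, 0 < m → m • P ≠ 0) → 0 < q P) := by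
  obtain ⟨C, hC⟩ := parallelogram W
  obtain ⟨q, C', hq, hC'⟩ := exists_quadratic (fun P : W.Point => nht P) C hC
  refine ⟨q, C', hC', ?_, ?_⟩
  · intro n P t m hm ht
    rw [quad_add_torsion hq _ hm ht, quad_zsmul hq]
  · intro P hP
    have hnn : ∀ Q : W.Point, -C' ≤ q Q := by
      intro Q
      have h1 := hC' Q
      have h2 : 0 ≤ nht Q := logHeight_nonneg _
      rw [abs_le] at h1
      linarith [h1.2]
    by_contra hle
    push Not at hle
    have hfin := finite_height_le W C'
    have hmem : ∀ n : ℕ, n • P ∈ {Q : W.Point | nht Q ≤ C'} := by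
      intro n
      have h1 := hC' (n • P)
      rw [quad_nsmul hq] at h1
      have h2 : (n : ℝ) ^ 2 * q P ≤ 0 := mul_nonpos_of_nonneg_of_nonpos (by positivity) hle
      rw [abs_le] at h1
      simp only [Set.mem_ofPred_eq]
      linarith [h1.2]
    have hninj : ¬ Function.Injective (fun n : ℕ => n • P) := by
      intro hinj
      exact (Set.infinite_range_of_injective hinj) (hfin.subset (by rintro _ ⟨n, rfl⟩; exact hmem n))
    rw [Function.not_injective_iff] at hninj
    obtain ⟨a, b, hab, hne⟩ := hninj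
    wlog hlt : a < b generalizing a b
    · exact this b a hab.symm hne.symm (by omega)
    apply hP (b - a) (by omega)
    rw [sub_nsmul _ hlt.le]
    have hab' : a • P = b • P := hab
    rw [hab', add_neg_cancel]

end Pool.Agent.Lib.MP_2f3286_ag.Ell
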