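import Pool.Agent.Lib.MP_2f3286_ag.Ell.Local

/-!
# The neighbourhoods of the origin have finite exponent
-/

open WeierstrassCurve WeierstrassCurve.Affine WeierstrassCurve.Affine.Point

namespace Pool.Agent.Lib.MP_2f3286_ag.Ell

variable {F : Type*} [Field F]

theorem eval_bound (v : AbsoluteValue F ℝ) {p : MvPolynomial (Fin 3) F} {N : ℕ}
    (hp : p.IsHomogeneous N) :
    ∃ C : ℝ, 0 ≤ C ∧ ∀ (x : Fin 3 → F) (B : ℝ), (∀ i, v (x i) ≤ B) → v (p.eval x) ≤ C * B ^ N := by
  refine ⟨(AddMonoidAlgebra.coeff p).sum (fun _ c ↦ v c), ?_, fun x B hB => ?_⟩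
  · exact Finset.sum_nonneg fun _ _ => v.nonneg _
  · refine (v.eval_mvPolynomial_le hp x).trans ?_
    gcongr
    · exact Finset.sum_nonneg fun _ _ => v.nonneg _
    · exact Real.iSup_nonneg fun _ => v.nonneg _
    · exact ciSup_le hB

/-- `addSubMap` is a morphism: lower bound for one absolute value. -/
theorem asv_lower (v : AbsoluteValue F ℝ) (W : WeierstrassCurve F) [W.IsElliptic] :
    ∃ κ : ℝ, 0 < κ ∧ ∀ (x : Fin 3 → F) (i : Fin 3), (∀ l, v (x l) ≤ v (x i)) →
      ∃ j, κ * v (x i) ^ 2 ≤ v (asv W (x 0) (x 1) (x 2) j) := by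
  have h := fun ij => eval_bound v ((isHomogeneous_addSubMapCoeff W ij).C_mul ((W.Δ'⁻¹ : Fˣ) : F))
  choose C hC0 hC using h
  set D : ℝ := 1 + ∑ ij, C ij with hD
  have hDpos : 0 < D := by
    have : 0 ≤ ∑ ij, C ij := Finset.sum_nonneg fun _ _ => hC0 _
    positivity
  have hCD : ∀ ij, C ij ≤ D := by
    intro ij
    have := Finset.single_le_sum (f := C) (fun ij _ => hC0 ij) (Finset.mem_univ ij)
    linarith
  refine ⟨1 / (3 * D), by positivity, fun x i hi => ?_⟩
  by_contra hcon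
  push Not at hcon
  have h1 := addSubMapCoeff_condition W x i
  have h2 := congrArg v h1
  rw [map_pow] at h2
  rcases (v.nonneg (x i)).eq_or_lt with h0 | h0
  · have := hcon 0
    rw [← h0] at this
    simp only [ne_eq, OfNat.ofNat_ne_zero, not_false_eq_true, zero_pow, mul_zero] at this
    exact absurd this (not_lt.mpr (v.nonneg _))
  have h3 : v (∑ j : Fin 3, (MvPolynomial.C ((W.Δ'⁻¹ : Fˣ) : F) * addSubMapCoeff W (i, j)).eval x *
      (addSubMap W j).eval x) < v (x i) ^ 4 := by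
    have h4 : ∀ j, (addSubMap W j).eval x = asv W (x 0) (x 1) (x 2) j :=
      fun j => congrFun (asv_eq W x) j
    calc _ ≤ ∑ j : Fin 3, v ((MvPolynomial.C ((W.Δ'⁻¹ : Fˣ) : F) *
            addSubMapCoeff W (i, j)).eval x * (addSubMap W j).eval x) := v.sum_le _ _
      _ < ∑ j : Fin 3, (D * v (x i) ^ 2) * (1 / (3 * D) * v (x i) ^ 2) := by
        refine Finset.sum_lt_sum_of_nonempty ⟨0, Finset.mem_univ _⟩ fun j _ => ?_
        rw [map_mul, h4]
        have h5 := (hC (i, j) x _ hi).trans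
          (mul_le_mul_of_nonneg_right (hCD (i, j)) (by positivity))
        have h6 := hcon j
        have h7 : 0 < D * v (x i) ^ 2 := by positivity
        calc _ ≤ (D * v (x i) ^ 2) * v (asv W (x 0) (x 1) (x 2) j) :=
              mul_le_mul_of_nonneg_right h5 (v.nonneg _)
          _ < _ := (mul_lt_mul_iff_right₀ h7).mpr h6
      _ = v (x i) ^ 4 := by
        rw [Finset.sum_const, Finset.card_univ, Fintype.card_fin, nsmul_eq_mul]
        field_simp
        push_cast
        ring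
  rw [h2] at h3
  exact lt_irrefl _ h3

variable [DecidableEq F]

omit [DecidableEq F] in
theorem gauss_lower {v : AbsoluteValue F ℝ} (hv : IsNonarchimedean v) (a b a' b' : F) :
    max (v a) (v b) * max (v a') (v b') ≤ v (a * a') ∨
    max (v a) (v b) * max (v a') (v b') ≤ v (a * b' + b * a') ∨
    max (v a) (v b) * max (v a') (v b') ≤ v (b * b') := by
  have key : ∀ a b a' b' : F, v b < v a → v a' < v b' → v a * v b' ≤ v (a * b' + b * a') := by
    intro a b a' b' h h'
    by_contra hlt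
    push Not at hlt
    have h1 : v (a * b') ≤ max (v (a * b' + b * a')) (v (b * a')) := by
      have e : a * b' = (a * b' + b * a') - b * a' := by ring
      calc v (a * b') = v ((a * b' + b * a') - b * a') := by rw [← e]
        _ ≤ _ := vsub hv (le_max_left _ _) (le_max_right _ _)
    have hb' : 0 < v b' := lt_of_le_of_lt (v.nonneg _) h'
    have h2 : v (b * a') < v a * v b' := by
      rw [map_mul]
      calc v b * v a' ≤ v b * v b' := mul_le_mul_of_nonneg_left h'.le (v.nonneg _)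
        _ < v a * v b' := mul_lt_mul_of_pos_right h hb'
    rw [map_mul] at h1
    exact absurd h1 (not_le.mpr (max_lt hlt h2))
  rcases lt_trichotomy (v a) (v b) with h | h | h <;>
    rcases lt_trichotomy (v a') (v b') with h' | h' | h'
  · right; right; rw [max_eq_right h.le, max_eq_right h'.le, map_mul]
  · right; right; rw [max_eq_right h.le, max_eq_right h'.le, map_mul]
  · right; left; rw [max_eq_right h.le, max_eq_left h'.le]
    have := key b a b' a' h h'
    rwa [add_comm] at this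
  · right; right; rw [max_eq_right h.le, max_eq_right h'.le, map_mul]
  · right; right; rw [max_eq_right h.le, max_eq_right h'.le, map_mul]
  · left; rw [max_eq_left h.ge, max_eq_left h'.le, map_mul]
  · right; left; rw [max_eq_left h.le, max_eq_right h'.le]
    exact key a b a' b' h h'
  · left; rw [max_eq_left h.le, max_eq_left h'.ge, map_mul]
  · left; rw [max_eq_left h.le, max_eq_left h'.le, map_mul]

/-- Points with close x-coordinates differ, up to sign, by a point near the origin. -/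
theorem near_of_close {v : AbsoluteValue F ℝ} (hv : IsNonarchimedean v) (W : Affine F)
    [W.IsElliptic] {δ : ℝ} (hδ0 : 0 < δ) (hδ1 : δ ≤ 1) :
    ∃ δ' : ℝ, 0 < δ' ∧ ∀ P Q : W.Point,
      v (P.xRep 0 * Q.xRep 1 - P.xRep 1 * Q.xRep 0) ≤
        δ' * (max (v (P.xRep 0)) (v (P.xRep 1)) * max (v (Q.xRep 0)) (v (Q.xRep 1))) →
      Near v δ (P + Q) ∨ Near v δ (P - Q) := by
  obtain ⟨κ, hκ, hlow⟩ := asv_lower v W
  refine ⟨Real.sqrt (κ * δ ^ 2 / 2), by positivity, fun P Q h => ?_⟩
  by_contra hcon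
  push Not at hcon
  obtain ⟨hn1, hn2⟩ := hcon
  rw [Near, not_le] at hn1 hn2
  obtain ⟨c, hc, hf⟩ := addSub W P Q
  set A := max (v (P.xRep 0)) (v (P.xRep 1)) with hA
  set B := max (v (Q.xRep 0)) (v (Q.xRep 1)) with hB
  set a₁ := (P + Q).xRep 0
  set b₁ := (P + Q).xRep 1
  set a₂ := (P - Q).xRep 0
  set b₂ := (P - Q).xRep 1
  have hb₁ : 0 < v b₁ := lt_of_le_of_lt (by positivity) hn1
  have hb₂ : 0 < v b₂ := lt_of_le_of_lt (by positivity) hn2
  have ha₁ : v a₁ ≤ v b₁ / δ := by rw [le_div_iff₀ hδ0]; linarith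
  have ha₂ : v a₂ ≤ v b₂ / δ := by rw [le_div_iff₀ hδ0]; linarith
  have hb₁' : v b₁ ≤ v b₁ / δ := by rw [le_div_iff₀ hδ0]; nlinarith
  have hb₂' : v b₂ ≤ v b₂ / δ := by rw [le_div_iff₀ hδ0]; nlinarith
  -- upper bound for all components
  have hup : ∀ j, v (asv W (P.sym2x Q 0) (P.sym2x Q 1) (P.sym2x Q 2) j) ≤
      v c * ((v b₁ / δ) * (v b₂ / δ)) := by
    intro j
    rw [hf, Pi.smul_apply, smul_eq_mul, map_mul]
    refine mul_le_mul_of_nonneg_left ?_ (v.nonneg _)
    have hp1 : 0 ≤ v b₁ / δ := by positivity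
    fin_cases j
    · change v (a₁ * a₂) ≤ _
      rw [map_mul]; exact mul_le_mul ha₁ ha₂ (v.nonneg _) hp1
    · change v (a₁ * b₂ + b₁ * a₂) ≤ _
      refine vadd hv ?_ ?_
      · rw [map_mul]; exact mul_le_mul ha₁ hb₂' (v.nonneg _) hp1
      · rw [map_mul]; exact mul_le_mul hb₁' ha₂ (v.nonneg _) hp1
    · change v (b₁ * b₂) ≤ _
      rw [map_mul]; exact mul_le_mul hb₁' hb₂' (v.nonneg _) hp1
  -- the last component
  have hlast : v c * (v b₁ * v b₂) ≤ (κ * δ ^ 2 / 2) * (A * B) ^ 2 := by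
    have e2 := congrFun hf 2
    have e3 : asv W (P.sym2x Q 0) (P.sym2x Q 1) (P.sym2x Q 2) 2 =
        (P.xRep 0 * Q.xRep 1 - P.xRep 1 * Q.xRep 0) ^ 2 := by
      simp [asv, sym2x]; ring
    have e4 : (c • sym2x (P + Q) (P - Q)) 2 = c * (b₁ * b₂) := by
      simp [sym2x, b₁, b₂]
    rw [e3, e4] at e2
    have e5 := congrArg v e2
    rw [map_pow, map_mul, map_mul] at e5
    rw [← e5]
    calc _ ≤ (Real.sqrt (κ * δ ^ 2 / 2) * (A * B)) ^ 2 := pow_le_pow_left₀ (v.nonneg _) h 2
      _ = _ := by rw [mul_pow, Real.sq_sqrt (by positivity)]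
  -- lower bound
  have hlow' : ∃ j, κ * (A * B) ^ 2 ≤ v (asv W (P.sym2x Q 0) (P.sym2x Q 1) (P.sym2x Q 2) j) := by
    obtain ⟨i, -, hi⟩ := Finset.exists_max_image Finset.univ (fun l => v (P.sym2x Q l))
      ⟨0, Finset.mem_univ _⟩
    obtain ⟨j, hj⟩ := hlow (P.sym2x Q) i (fun l => hi l (Finset.mem_univ _))
    refine ⟨j, le_trans ?_ hj⟩
    have hAB : A * B ≤ v (P.sym2x Q i) := by
      rcases gauss_lower hv (P.xRep 0) (P.xRep 1) (Q.xRep 0) (Q.xRep 1) with h1 | h1 | h1
      · refine h1.trans ?_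
        have := hi 0 (Finset.mem_univ _)
        simpa [sym2x] using this
      · refine h1.trans ?_
        have := hi 1 (Finset.mem_univ _)
        simpa [sym2x] using this
      · refine h1.trans ?_
        have := hi 2 (Finset.mem_univ _)
        simpa [sym2x] using this
    have hAB0 : 0 ≤ A * B := mul_nonneg (le_max_of_le_left (v.nonneg _))
      (le_max_of_le_left (v.nonneg _))
    gcongr
  obtain ⟨j, hj⟩ := hlow'
  have h1 := hj.trans (hup j)
  have h2 : v c * ((v b₁ / δ) * (v b₂ / δ)) = v c * (v b₁ * v b₂) / δ ^ 2 := by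
    field_simp
  rw [h2] at h1
  have h3 : v c * (v b₁ * v b₂) / δ ^ 2 ≤ (κ / 2) * (A * B) ^ 2 := by
    rw [div_le_iff₀ (by positivity)]
    linarith
  have h4 : 0 < v c * (v b₁ * v b₂) := by
    have := v.pos hc
    positivity
  have h5 : 0 < (A * B) ^ 2 := by
    by_contra h0
    push Not at h0
    nlinarith [sq_nonneg (A * B), mul_nonneg hκ.le (sq_nonneg (A * B))]
  nlinarith

end Pool.Agent.Lib.MP_2f3286_ag.Ell
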