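import Pool.Agent.Lib.MP_2f3286_ag.Ell.AddSub

/-!
# Neighbourhoods of the origin for a nonarchimedean absolute value
-/

open WeierstrassCurve WeierstrassCurve.Affine WeierstrassCurve.Affine.Point

namespace Pool.Agent.Lib.MP_2f3286_ag.Ell

variable {F : Type*} [Field F] [DecidableEq F]

omit [DecidableEq F] in
/-- the quadratic form with roots `x(P+Q)`, `x(P-Q)` vanishes at `x(P+Q)` -/
theorem form_vanish {s t u a b a' b' c : F} (W : WeierstrassCurve F)
    (h : asv W s t u = c • ![a * a', a * b' + b * a', b * b']) :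
    asv W s t u 2 * a ^ 2 - asv W s t u 1 * a * b + asv W s t u 0 * b ^ 2 = 0 := by
  rw [h]
  simp
  ring

/-- `P` is in the neighbourhood of radius `δ` of the origin -/
def Near (v : AbsoluteValue F ℝ) {W : Affine F} (δ : ℝ) (P : W.Point) : Prop :=
  v (P.xRep 1) ≤ δ * v (P.xRep 0)

omit [DecidableEq F] in
theorem near_zero (v : AbsoluteValue F ℝ) {W : Affine F} {δ : ℝ} (hδ : 0 ≤ δ) :
    Near v δ (0 : W.Point) := by
  simp [Near, hδ]

omit [DecidableEq F] in
theorem near_neg (v : AbsoluteValue F ℝ) {W : Affine F} {δ : ℝ} {P : W.Point} (h : Near v δ P) :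
    Near v δ (-P) := by
  simpa [Near] using h

omit [DecidableEq F] in
theorem Near.mono {v : AbsoluteValue F ℝ} {W : Affine F} {δ δ' : ℝ} (hδ : δ ≤ δ') {P : W.Point}
    (h : Near v δ P) : Near v δ' P :=
  le_trans h (by gcongr)

omit [DecidableEq F] in
theorem Near.ne_zero {v : AbsoluteValue F ℝ} {W : Affine F} {δ : ℝ} {P : W.Point}
    (h : Near v δ P) : P.xRep 0 ≠ 0 := by
  intro h0
  have h1 : v (P.xRep 1) ≤ 0 := by simpa [Near, h0] using h
  have h2 : P.xRep 1 = 0 := v.eq_zero.mp (le_antisymm h1 (v.nonneg _))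
  apply xRep_ne_zero P
  funext i
  fin_cases i
  · exact h0
  · exact h2

/-- the coordinate `b/a` at the origin -/
noncomputable def zc {W : Affine F} (P : W.Point) : F := P.xRep 1 / P.xRep 0

omit [DecidableEq F] in
theorem near_iff {v : AbsoluteValue F ℝ} {W : Affine F} {δ : ℝ} {P : W.Point}
    (h0 : P.xRep 0 ≠ 0) : Near v δ P ↔ v (zc P) ≤ δ := by
  rw [Near, zc, map_div₀, div_le_iff₀ (v.pos h0)]

/-- the addition formula near the origin -/
theorem near_formula (W : Affine F) [W.IsElliptic] (P Q : W.Point) (hP : P.xRep 0 ≠ 0)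
    (hQ : Q.xRep 0 ≠ 0)
    (h0 : asv W 1 (zc P + zc Q) (zc P * zc Q) 0 ≠ 0) :
    (P + Q).xRep 0 ≠ 0 ∧ (P - Q).xRep 0 ≠ 0 ∧
      (zc (P + Q) + zc (P - Q)) * asv W 1 (zc P + zc Q) (zc P * zc Q) 0 =
        asv W 1 (zc P + zc Q) (zc P * zc Q) 1 ∧
      (zc (P + Q) * zc (P - Q)) * asv W 1 (zc P + zc Q) (zc P * zc Q) 0 =
        (zc P - zc Q) ^ 2 := by
  obtain ⟨c, hc, h⟩ := addSub W P Q
  have h1 : asv W (P.sym2x Q 0) (P.sym2x Q 1) (P.sym2x Q 2) =
      (P.xRep 0 * Q.xRep 0) ^ 2 • asv W 1 (zc P + zc Q) (zc P * zc Q) := by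
    rw [← asv_smul]
    congr 1
    · simp [sym2x]
    · simp only [sym2x, zc]
      simp only [Matrix.cons_val_one, Matrix.cons_val_zero]
      field_simp
      ring
    · simp only [sym2x, zc]
      simp only [Matrix.cons_val]
      field_simp
  rw [h1] at h
  have hd : (P.xRep 0 * Q.xRep 0) ^ 2 ≠ 0 := pow_ne_zero 2 (mul_ne_zero hP hQ)
  have e0 := congrFun h 0
  have e1 := congrFun h 1
  have e2 := congrFun h 2
  simp only [Pi.smul_apply, smul_eq_mul, sym2x, Matrix.cons_val_zero, Matrix.cons_val_one,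
    Matrix.cons_val] at e0 e1 e2
  have hne : (P + Q).xRep 0 * (P - Q).xRep 0 ≠ 0 := by
    intro h2
    rw [h2, mul_zero] at e0
    exact mul_ne_zero hd h0 e0
  have hA := left_ne_zero_of_mul hne
  have hB := right_ne_zero_of_mul hne
  refine ⟨hA, hB, ?_, ?_⟩
  · apply mul_left_cancel₀ hd
    rw [e1]
    calc (P.xRep 0 * Q.xRep 0) ^ 2 * ((zc (P + Q) + zc (P - Q)) *
          asv W 1 (zc P + zc Q) (zc P * zc Q) 0)
        = (zc (P + Q) + zc (P - Q)) * ((P.xRep 0 * Q.xRep 0) ^ 2 *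
          asv W 1 (zc P + zc Q) (zc P * zc Q) 0) := by ring
      _ = _ := by
        rw [e0, zc, zc]
        field_simp
        ring
  · apply mul_left_cancel₀ hd
    have e3 : asv W 1 (zc P + zc Q) (zc P * zc Q) 2 = (zc P - zc Q) ^ 2 := by
      simp [asv]; ring
    rw [← e3, e2]
    calc (P.xRep 0 * Q.xRep 0) ^ 2 * (zc (P + Q) * zc (P - Q) *
          asv W 1 (zc P + zc Q) (zc P * zc Q) 0)
        = (zc (P + Q) * zc (P - Q)) * ((P.xRep 0 * Q.xRep 0) ^ 2 *
          asv W 1 (zc P + zc Q) (zc P * zc Q) 0) := by ring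
      _ = _ := by
        rw [e0, zc, zc]
        field_simp

section nonarch

variable {v : AbsoluteValue F ℝ} (hv : IsNonarchimedean v)

include hv

omit [DecidableEq F] in
theorem vadd {x y : F} {B : ℝ} (hx : v x ≤ B) (hy : v y ≤ B) : v (x + y) ≤ B :=
  (hv x y).trans (max_le hx hy)

omit [DecidableEq F] in
theorem vsub {x y : F} {B : ℝ} (hx : v x ≤ B) (hy : v y ≤ B) : v (x - y) ≤ B := by
  rw [sub_eq_add_neg]
  exact vadd hv hx (by rwa [v.map_neg])

omit [DecidableEq F] in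
theorem vnat (n : ℕ) : v (n : F) ≤ 1 := by
  induction n with
  | zero => simp
  | succ n ih => rw [Nat.cast_succ]; exact vadd hv ih (by simp)

omit [DecidableEq F] in
theorem v_eq_one {x : F} (hx : v (x - 1) < 1) : v x = 1 := by
  apply le_antisymm
  · have : x = (x - 1) + 1 := by ring
    rw [this]
    exact vadd hv hx.le (by simp)
  · by_contra hlt
    push Not at hlt
    have h1 : v (x - (x - 1)) ≤ max (v x) (v (x - 1)) :=
      vsub hv (le_max_left _ _) (le_max_right _ _)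
    rw [sub_sub_cancel, v.map_one] at h1
    exact absurd h1 (not_le.mpr (max_lt hlt hx))

omit [DecidableEq F] in
/-- bound for the roots of a quadratic polynomial -/
theorem root_le {r s : F} {δ : ℝ} (hδ : 0 ≤ δ) (h1 : v (r + s) ≤ δ) (h2 : v (r * s) ≤ δ ^ 2) :
    v r ≤ δ := by
  by_contra hlt
  push Not at hlt
  have h3 : r ^ 2 = (r + s) * r - r * s := by ring
  have h4 : v r ^ 2 ≤ max (δ * v r) (δ ^ 2) := by
    rw [← map_pow, h3]
    refine vsub hv ?_ (h2.trans (le_max_right _ _))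
    rw [map_mul]
    exact (mul_le_mul_of_nonneg_right h1 (v.nonneg _)).trans (le_max_left _ _)
  rcases le_max_iff.mp h4 with h5 | h5
  · nlinarith
  · nlinarith

variable {M : ℝ} (hM : 1 ≤ M) {W : Affine F} [W.IsElliptic] (hb₂ : v W.b₂ ≤ M) (hb₄ : v W.b₄ ≤ M)
  (hb₆ : v W.b₆ ≤ M) (hb₈ : v W.b₈ ≤ M)

include hM hb₂ hb₄ hb₆ hb₈

/-- The neighbourhoods of the origin are subgroups. -/
theorem near_add_sub {δ : ℝ} (hδ0 : 0 ≤ δ) (hδ : δ * M < 1) {P Q : W.Point} (hP : Near v δ P)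
    (hQ : Near v δ Q) : Near v δ (P + Q) ∧ Near v δ (P - Q) := by
  have hP0 := hP.ne_zero
  have hQ0 := hQ.ne_zero
  rw [near_iff hP0] at hP
  rw [near_iff hQ0] at hQ
  set β := zc P with hβ
  set γ := zc Q with hγ
  have hδ1 : δ < 1 := by nlinarith
  have hu : v (β * γ) ≤ δ * δ := by
    rw [map_mul]; exact mul_le_mul hP hQ (v.nonneg _) hδ0
  have ht : v (β + γ) ≤ δ := vadd hv hP hQ
  have hδδ : M * (δ * δ) ≤ δ := by nlinarith
  have hδδ' : M * (δ * δ) < 1 := by linarith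
  have h2 : v (2 : F) ≤ 1 := by exact_mod_cast vnat hv 2
  have b1 : v (W.b₄ * (β * γ)) ≤ M * (δ * δ) := by
    rw [map_mul]; exact mul_le_mul hb₄ hu (v.nonneg _) (by linarith)
  have hMn : 0 ≤ M := by linarith
  have hdd : 0 ≤ δ * δ := mul_nonneg hδ0 hδ0
  have hdd1 : δ * δ ≤ 1 := by nlinarith
  have b2 : v (W.b₆ * (β + γ) * (β * γ)) ≤ M * (δ * δ) := by
    rw [map_mul, map_mul]
    have : v W.b₆ * v (β + γ) ≤ M * 1 := mul_le_mul hb₆ (ht.trans hδ1.le) (v.nonneg _) hMn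
    rw [mul_one] at this
    exact mul_le_mul this hu (v.nonneg _) hMn
  have b3 : v (W.b₈ * (β * γ) ^ 2) ≤ M * (δ * δ) := by
    rw [map_mul, map_pow]
    refine mul_le_mul hb₈ ?_ (by positivity) hMn
    nlinarith [v.nonneg (β * γ)]
  have b4 : v (W.b₂ * (β * γ)) ≤ M * (δ * δ) := by
    rw [map_mul]; exact mul_le_mul hb₂ hu (v.nonneg _) (by linarith)
  have b5 : v (W.b₄ * (β + γ) * (β * γ)) ≤ M * (δ * δ) := by
    rw [map_mul, map_mul]
    have : v W.b₄ * v (β + γ) ≤ M * 1 := mul_le_mul hb₄ (ht.trans hδ1.le) (v.nonneg _) hMn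
    rw [mul_one] at this
    exact mul_le_mul this hu (v.nonneg _) hMn
  have b6 : v (W.b₆ * (β * γ) ^ 2) ≤ M * (δ * δ) := by
    rw [map_mul, map_pow]
    refine mul_le_mul hb₆ ?_ (by positivity) hMn
    nlinarith [v.nonneg (β * γ)]
  have hF0 : v (asv W 1 (β + γ) (β * γ) 0) = 1 := by
    apply v_eq_one hv
    have e : asv W 1 (β + γ) (β * γ) 0 - 1 = 0 - W.b₄ * (β * γ) - W.b₆ * (β + γ) * (β * γ) -
        W.b₈ * (β * γ) ^ 2 := by
      simp [asv]; ring
    rw [e]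
    refine lt_of_le_of_lt (vsub hv (vsub hv (vsub hv ?_ b1) b2) b3) hδδ'
    rw [v.map_zero]; positivity
  have hF1 : v (asv W 1 (β + γ) (β * γ) 1) ≤ δ := by
    have e : asv W 1 (β + γ) (β * γ) 1 = 2 * (β + γ) + W.b₂ * (β * γ) +
        W.b₄ * (β + γ) * (β * γ) + W.b₆ * (β * γ) ^ 2 := by
      simp [asv]
    rw [e]
    refine vadd hv (vadd hv (vadd hv ?_ (b4.trans hδδ)) (b5.trans hδδ)) (b6.trans hδδ)
    rw [map_mul]
    calc v 2 * v (β + γ) ≤ 1 * δ := mul_le_mul h2 ht (v.nonneg _) zero_le_one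
      _ = δ := one_mul _
  have hF0' : asv W 1 (β + γ) (β * γ) 0 ≠ 0 := by
    intro h; rw [h, v.map_zero] at hF0; exact zero_ne_one hF0
  obtain ⟨hA, hB, hs, hp⟩ := near_formula W P Q hP0 hQ0 hF0'
  rw [← hβ, ← hγ] at hs hp
  have hs' : v (zc (P + Q) + zc (P - Q)) ≤ δ := by
    have := congrArg v hs
    rw [map_mul, hF0, mul_one] at this
    rw [this]; exact hF1
  have hp' : v (zc (P + Q) * zc (P - Q)) ≤ δ ^ 2 := by
    have := congrArg v hp
    rw [map_mul, hF0, mul_one, map_pow] at this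
    rw [this]
    exact pow_le_pow_left₀ (v.nonneg _) (vsub hv hP hQ) 2
  refine ⟨(near_iff hA).mpr (root_le hv hδ0 hs' hp'), (near_iff hB).mpr (root_le hv (s := zc (P + Q)) hδ0 ?_ ?_)⟩
  · rwa [add_comm]
  · rwa [mul_comm]

/-- Adding a point near the origin does not change the x-coordinate much. -/
theorem cong_add {ρ δ : ℝ} (hρ : 0 ≤ ρ) (hδ : 0 ≤ δ) (hδρ : δ * M ≤ ρ ^ 2) {T : W.Point}
    (hT : Near v δ T) (Q : W.Point) :
    v (Q.xRep 0 * (Q + T).xRep 1 - Q.xRep 1 * (Q + T).xRep 0) ≤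
      ρ * max (v (Q.xRep 0)) (v (Q.xRep 1)) *
        max (v ((Q + T).xRep 0)) (v ((Q + T).xRep 1)) := by
  set α := Q.xRep 0 with hα
  set β := Q.xRep 1 with hβ
  set α' := (Q + T).xRep 0 with hα'
  set β' := (Q + T).xRep 1 with hβ'
  set A := max (v α) (v β) with hA
  set A' := max (v α') (v β') with hA'
  have hA0 : 0 ≤ A := le_max_of_le_left (v.nonneg _)
  have hA'0 : 0 ≤ A' := le_max_of_le_left (v.nonneg _)
  have ha : v α ≤ A := le_max_left _ _
  have hb : v β ≤ A := le_max_right _ _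
  have ha' : v α' ≤ A' := le_max_left _ _
  have hb' : v β' ≤ A' := le_max_right _ _
  rcases le_or_gt 1 ρ with hρ1 | hρ1
  · have h1 : v (α * β' - β * α') ≤ A * A' := by
      refine vsub hv ?_ ?_
      · rw [map_mul]; exact mul_le_mul ha hb' (v.nonneg _) hA0
      · rw [map_mul]; exact mul_le_mul hb ha' (v.nonneg _) hA0
    have : 0 ≤ A * A' := mul_nonneg hA0 hA'0
    nlinarith
  have hT0 := hT.ne_zero
  rw [near_iff hT0] at hT
  set z := zc T with hz
  have hδM : δ ≤ ρ ^ 2 := by nlinarith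
  have hz1 : v z ≤ 1 := hT.trans (hδM.trans (by nlinarith))
  have hz0 := v.nonneg z
  have hMz : M * v z ≤ ρ ^ 2 := by nlinarith
  obtain ⟨c, hc, h⟩ := addSub W Q T
  have h1 : asv W (Q.sym2x T 0) (Q.sym2x T 1) (Q.sym2x T 2) =
      (T.xRep 0) ^ 2 • asv W α (α * z + β) (β * z) := by
    rw [← asv_smul]
    congr 1
    · simp [sym2x, hα]; ring
    · simp only [sym2x, hz, zc, hα, hβ]
      simp only [Matrix.cons_val_one, Matrix.cons_val_zero]
      field_simp
    · simp only [sym2x, hz, zc, hβ]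
      simp only [Matrix.cons_val]
      field_simp
  rw [h1] at h
  have hd : (T.xRep 0) ^ 2 ≠ 0 := pow_ne_zero 2 hT0
  have h2 : asv W α (α * z + β) (β * z) = (c / (T.xRep 0) ^ 2) •
      ![α' * (Q - T).xRep 0, α' * (Q - T).xRep 1 + β' * (Q - T).xRep 0, β' * (Q - T).xRep 1] := by
    have h3 : asv W α (α * z + β) (β * z) = ((T.xRep 0) ^ 2)⁻¹ • ((T.xRep 0) ^ 2 •
      asv W α (α * z + β) (β * z)) := by rw [inv_smul_smul₀ hd]
    rw [h3, h, smul_smul, div_eq_inv_mul]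
    rfl
  have h3 := form_vanish W h2
  -- the errors
  have hMA : ∀ x y : F, v x ≤ A → v y ≤ A → v (x * y) ≤ A ^ 2 := by
    intro x y hx hy
    rw [map_mul, sq]; exact mul_le_mul hx hy (v.nonneg _) hA0
  have hαz : v (α * z + β) ≤ A := by
    refine vadd hv ?_ hb
    rw [map_mul]
    calc v α * v z ≤ A * 1 := mul_le_mul ha hz1 hz0 hA0
      _ = A := mul_one _
  have hβz : v (β * z) ≤ A := by
    rw [map_mul]
    calc v β * v z ≤ A * 1 := mul_le_mul hb hz1 hz0 hA0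
      _ = A := mul_one _
  have key : ∀ w x y : F, v w ≤ M → v x ≤ A → v y ≤ A → v (w * (x * y) * z) ≤ ρ ^ 2 * A ^ 2 := by
    intro w x y hw hx hy
    rw [map_mul, map_mul]
    have e1 : v w * v (x * y) ≤ M * A ^ 2 := mul_le_mul hw (hMA x y hx hy) (v.nonneg _) (by linarith)
    calc v w * v (x * y) * v z ≤ M * A ^ 2 * v z := mul_le_mul_of_nonneg_right e1 hz0
      _ = (M * v z) * A ^ 2 := by ring
      _ ≤ ρ ^ 2 * A ^ 2 := mul_le_mul_of_nonneg_right hMz (by positivity)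
  have h2' : v (2 : F) ≤ M := le_trans (by exact_mod_cast vnat hv 2) hM
  have h1' : v (1 : F) ≤ M := by rw [v.map_one]; exact hM
  have E0 : v (asv W α (α * z + β) (β * z) 0 - α ^ 2) ≤ ρ ^ 2 * A ^ 2 := by
    have e : asv W α (α * z + β) (β * z) 0 - α ^ 2 =
        0 - W.b₄ * (α * β) * z - W.b₆ * ((α * z + β) * β) * z - W.b₈ * (β * (β * z)) * z := by
      simp [asv]; ring
    rw [e]
    refine vsub hv (vsub hv (vsub hv ?_ (key _ _ _ hb₄ ha hb)) (key _ _ _ hb₆ hαz hb))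
      (key _ _ _ hb₈ hb hβz)
    rw [v.map_zero]; positivity
  have E1 : v (asv W α (α * z + β) (β * z) 1 - 2 * (α * β)) ≤ ρ ^ 2 * A ^ 2 := by
    have e : asv W α (α * z + β) (β * z) 1 - 2 * (α * β) =
        2 * (α * α) * z + W.b₂ * (α * β) * z + W.b₄ * ((α * z + β) * β) * z +
          W.b₆ * (β * (β * z)) * z := by
      simp [asv]; ring
    rw [e]
    exact vadd hv (vadd hv (vadd hv (key _ _ _ h2' ha ha) (key _ _ _ hb₂ ha hb))
      (key _ _ _ hb₄ hαz hb)) (key _ _ _ hb₆ hb hβz)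
  have E2 : v (asv W α (α * z + β) (β * z) 2 - β ^ 2) ≤ ρ ^ 2 * A ^ 2 := by
    have e : asv W α (α * z + β) (β * z) 2 - β ^ 2 =
        1 * (α * (α * z)) * z - 2 * (α * β) * z := by
      simp [asv]; ring
    rw [e]
    refine vsub hv (key _ _ _ h1' ha ?_) (key _ _ _ h2' ha hb)
    rw [map_mul]
    calc v α * v z ≤ A * 1 := mul_le_mul ha hz1 hz0 hA0
      _ = A := mul_one _
  have hsq : (α * β' - β * α') ^ 2 =
      0 - (asv W α (α * z + β) (β * z) 2 - β ^ 2) * (α' * α') +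
        (asv W α (α * z + β) (β * z) 1 - 2 * (α * β)) * (α' * β') -
        (asv W α (α * z + β) (β * z) 0 - α ^ 2) * (β' * β') := by
    linear_combination h3
  have hMA' : ∀ x y : F, v x ≤ A' → v y ≤ A' → v (x * y) ≤ A' ^ 2 := by
    intro x y hx hy
    rw [map_mul, sq]; exact mul_le_mul hx hy (v.nonneg _) hA'0
  have hfin : v (α * β' - β * α') ^ 2 ≤ (ρ * A * A') ^ 2 := by
    rw [← map_pow, hsq]
    have e : (ρ * A * A') ^ 2 = (ρ ^ 2 * A ^ 2) * A' ^ 2 := by ring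
    rw [e]
    have hn : 0 ≤ ρ ^ 2 * A ^ 2 := by positivity
    refine vsub hv (vadd hv (vsub hv ?_ ?_) ?_) ?_
    · rw [v.map_zero]; positivity
    · rw [map_mul]; exact mul_le_mul E2 (hMA' _ _ ha' ha') (v.nonneg _) hn
    · rw [map_mul]; exact mul_le_mul E1 (hMA' _ _ ha' hb') (v.nonneg _) hn
    · rw [map_mul]; exact mul_le_mul E0 (hMA' _ _ hb' hb') (v.nonneg _) hn
  exact le_of_sq_le_sq hfin (by positivity)

end nonarch

end Pool.Agent.Lib.MP_2f3286_ag.Ell
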